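import Mathlib

/-!
# Quasimorphisms on soluble groups

A quasimorphism on a soluble group is at bounded distance from a homomorphism to the reals.
-/

set_option autoImplicit false

open scoped commutatorElement

namespace Pool.Agent.SolRO

/-- If all natural multiples of a real number are bounded then the number is zero. -/
theorem eq_zero_of_forall_nat_mul_le {r D : ℝ} (h : ∀ n : ℕ, |(n : ℝ) * r| ≤ D) : r = 0 := by
  by_contra hr
  have hr' : 0 < |r| := abs_pos.mpr hr
  obtain ⟨n, hn⟩ := exists_nat_gt (D / |r|)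
  have h1 := h n
  rw [abs_mul, Nat.abs_cast] at h1
  rw [div_lt_iff₀ hr'] at hn
  linarith

section Homogeneous

variable {L : Type*} [Group L] {f : L → ℝ} {D : ℝ}

theorem homog_one (hh : ∀ x (n : ℕ), f (x ^ n) = n * f x) : f 1 = 0 := by
  have := hh 1 0
  simpa using this

/-- A homogeneous quasimorphism is conjugation invariant. -/
theorem homog_conj (hq : ∀ x y, |f (x * y) - f x - f y| ≤ D)
    (hh : ∀ x (n : ℕ), f (x ^ n) = n * f x) (g x : L) : f (g * x * g⁻¹) = f x := by
  have key : f (g * x * g⁻¹) - f x = 0 := by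
    apply eq_zero_of_forall_nat_mul_le (D := 2 * D + |f g + f g⁻¹|)
    intro n
    have e1 : (n : ℝ) * (f (g * x * g⁻¹) - f x) = f (g * x ^ n * g⁻¹) - f (x ^ n) := by
      rw [hh x n, mul_sub, ← hh (g * x * g⁻¹) n]
      congr 2
      rw [conj_pow]
    rw [e1]
    have h1 := hq (g * x ^ n) g⁻¹
    have h2 := hq g (x ^ n)
    rw [abs_le] at h1 h2 ⊢
    have h3 := neg_abs_le (f g + f g⁻¹)
    have h4 := le_abs_self (f g + f g⁻¹)
    constructor <;> linarith [h1.1, h1.2, h2.1, h2.2]
  linarith

/-- One step: additivity on the derived subgroup of a normal subgroup gives additivity on it. -/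
theorem homog_step (hq : ∀ x y, |f (x * y) - f x - f y| ≤ D)
    (hh : ∀ x (n : ℕ), f (x ^ n) = n * f x) (A : Subgroup L) [A.Normal]
    (hA : ∀ x ∈ ⁅A, A⁆, ∀ y ∈ ⁅A, A⁆, f (x * y) = f x + f y) :
    ∀ x ∈ A, ∀ y ∈ A, f (x * y) = f x + f y := by
  have hn : (⁅A, A⁆ : Subgroup L).Normal := inferInstance
  -- first: additivity for x in A, c in the commutator
  have h2 : ∀ x c, c ∈ ⁅A, A⁆ → f (x * c) = f x + f c := by
    intro x c hc
    have hpow : ∀ n : ℕ, ∃ d ∈ ⁅A, A⁆, (x * c) ^ n = x ^ n * d ∧ f d = n * f c := by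
      intro n
      induction n with
      | zero => exact ⟨1, one_mem _, by simp, by simp [homog_one hh]⟩
      | succ n ih =>
        obtain ⟨d, hd, e, fd⟩ := ih
        have hd' : x⁻¹ * d * x ∈ ⁅A, A⁆ := by
          have := hn.conj_mem d hd x⁻¹
          simpa using this
        refine ⟨x⁻¹ * d * x * c, mul_mem hd' hc, ?_, ?_⟩
        · rw [pow_succ, e, pow_succ]
          group
        · rw [hA _ hd' _ hc]
          have := homog_conj hq hh x⁻¹ d
          rw [inv_inv] at this
          rw [this, fd]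
          push_cast
          ring
    have key : f (x * c) - f x - f c = 0 := by
      apply eq_zero_of_forall_nat_mul_le (D := D)
      intro n
      obtain ⟨d, hd, e, fd⟩ := hpow n
      have := hq (x ^ n) d
      rw [← e, hh, hh, fd] at this
      convert this using 2
      ring
    linarith
  -- second: vanishing on the commutator subgroup
  have h3 : ∀ c ∈ ⁅A, A⁆, f c = 0 := by
    intro c hc
    have hgen : ∀ g h, g ∈ A → h ∈ A → f ⁅g, h⁆ = 0 := by
      intro g h hg hh'
      -- ⁅g, h⁆ = g h g⁻¹ h⁻¹ ; take x = h⁻¹ g⁻¹ ... use g⁻¹ h⁻¹ = h⁻¹ g⁻¹ * ⁅g, h⁆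
      have hc' : ⁅g, h⁆ ∈ ⁅A, A⁆ := Subgroup.commutator_mem_commutator hg hh'
      have e : g⁻¹ * h⁻¹ = h⁻¹ * g⁻¹ * ⁅g, h⁆ := by
        rw [commutatorElement_def]; group
      have e1 := h2 (h⁻¹ * g⁻¹) ⁅g, h⁆ hc'
      rw [← e] at e1
      have e2 : f (g⁻¹ * h⁻¹) = f (h⁻¹ * g⁻¹) := by
        have := homog_conj hq hh g⁻¹ (h⁻¹ * g⁻¹)
        rw [← this]
        congr 1
        group
      linarith
    rw [Subgroup.commutator_def] at hc
    refine Subgroup.closure_induction (p := fun c _ => f c = 0) ?_ ?_ ?_ ?_ hc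
    · rintro x ⟨g, hg, h, hh', rfl⟩
      exact hgen g h hg hh'
    · exact homog_one hh
    · intro x y hx hy fx fy
      rw [← Subgroup.commutator_def] at hx hy
      rw [hA x hx y hy, fx, fy, add_zero]
    · intro x hx fx
      rw [← Subgroup.commutator_def] at hx
      have := hA x hx x⁻¹ (inv_mem hx)
      rw [mul_inv_cancel, homog_one hh, fx] at this
      linarith
  -- third: additivity on A
  intro x hx y hy
  have key : f (x * y) - f x - f y = 0 := by
    apply eq_zero_of_forall_nat_mul_le (D := D)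
    intro n
    have hc : (x ^ n * y ^ n)⁻¹ * (x * y) ^ n ∈ ⁅A, A⁆ := by
      rw [← QuotientGroup.eq]
      have hcomm : Commute (x : L ⧸ ⁅A, A⁆) (y : L ⧸ ⁅A, A⁆) := by
        show (x : L ⧸ ⁅A, A⁆) * y = y * x
        rw [← QuotientGroup.mk_mul, ← QuotientGroup.mk_mul, QuotientGroup.eq]
        have := Subgroup.commutator_mem_commutator (inv_mem hy) (inv_mem hx)
        convert this using 1
        rw [commutatorElement_def]; group
      rw [QuotientGroup.mk_mul, QuotientGroup.mk_pow, QuotientGroup.mk_pow, QuotientGroup.mk_pow,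
        QuotientGroup.mk_mul, hcomm.mul_pow]
    have e : f ((x * y) ^ n) = f (x ^ n * y ^ n) := by
      have := h2 (x ^ n * y ^ n) _ hc
      rw [h3 _ hc, add_zero, mul_inv_cancel_left] at this
      exact this
    have := hq (x ^ n) (y ^ n)
    rw [← e, hh, hh, hh] at this
    convert this using 2
    ring
  linarith

/-- A homogeneous quasimorphism on a soluble group is a homomorphism. -/
theorem homog_hom (hq : ∀ x y, |f (x * y) - f x - f y| ≤ D)
    (hh : ∀ x (n : ℕ), f (x ^ n) = n * f x) {n : ℕ} (hn : derivedSeries L n = ⊥) :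
    ∀ x y, f (x * y) = f x + f y := by
  have key : ∀ k ≤ n, ∀ x ∈ derivedSeries L (n - k), ∀ y ∈ derivedSeries L (n - k),
      f (x * y) = f x + f y := by
    intro k
    induction k with
    | zero =>
      intro _ x hx y hy
      rw [Nat.sub_zero, hn, Subgroup.mem_bot] at hx hy
      subst hx; subst hy
      simp [homog_one hh]
    | succ k ih =>
      intro hk
      have e : n - k = (n - (k + 1)) + 1 := by omega
      have ih' := ih (by omega)
      rw [e, derivedSeries_succ] at ih'
      exact homog_step hq hh _ ih'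
  intro x y
  have := key n le_rfl x (by simp) y (by simp)
  exact this

end Homogeneous

section Homogenise

variable {L : Type*} [Group L] {f : L → ℝ} {D : ℝ}

theorem qm_pow (hq : ∀ x y, |f (x * y) - f x - f y| ≤ D) (x : L) (n : ℕ) :
    |f (x ^ n) - n * f x| ≤ (n + 1) * D := by
  induction n with
  | zero =>
    have := hq 1 1
    simp only [mul_one] at this
    rw [abs_le] at this ⊢
    simp only [pow_zero, Nat.cast_zero, zero_mul, sub_zero, zero_add, one_mul]
    constructor <;> linarith [this.1, this.2]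
  | succ n ih =>
    have := hq (x ^ n) x
    rw [pow_succ]
    rw [abs_le] at this ih ⊢
    push_cast
    constructor <;> nlinarith [this.1, this.2, ih.1, ih.2]

theorem qm_homogenise (hq : ∀ x y, |f (x * y) - f x - f y| ≤ D) :
    ∃ F : L → ℝ, (∀ x, |F x - f x| ≤ D) ∧ (∀ x (n : ℕ), F (x ^ n) = n * F x) ∧
      ∀ x y, |F (x * y) - F x - F y| ≤ 4 * D := by
  have hD : 0 ≤ D := le_trans (abs_nonneg _) (hq 1 1)
  let u : L → ℕ → ℝ := fun x k => f (x ^ (2 ^ k)) / 2 ^ k
  have hu : ∀ x k, dist (u x k) (u x (k + 1)) ≤ D / 2 / 2 ^ k := by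
    intro x k
    rw [Real.dist_eq, abs_sub_comm]
    have e : u x (k + 1) - u x k =
        (f (x ^ (2 ^ k) * x ^ (2 ^ k)) - f (x ^ (2 ^ k)) - f (x ^ (2 ^ k))) / (2 * 2 ^ k) := by
      show f (x ^ (2 ^ (k + 1))) / 2 ^ (k + 1) - f (x ^ (2 ^ k)) / 2 ^ k = _
      rw [pow_succ 2 k, pow_mul, pow_two, pow_succ]
      field_simp
      ring
    rw [e, abs_div, abs_of_pos (by positivity : (0:ℝ) < 2 * 2 ^ k), div_div]
    exact div_le_div_of_nonneg_right (hq _ _) (by positivity)
  have hc : ∀ x, CauchySeq (u x) := fun x => cauchySeq_of_le_geometric_two (hu x)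
  choose F hF using fun x => cauchySeq_tendsto_of_complete (hc x)
  have h1 : ∀ x, |F x - f x| ≤ D := by
    intro x
    have := dist_le_of_le_geometric_two_of_tendsto₀ (hu x) (hF x)
    rw [Real.dist_eq, abs_sub_comm] at this
    simpa [u] using this
  have h2 : ∀ x (n : ℕ), F (x ^ n) = n * F x := by
    intro x n
    have t1 : Filter.Tendsto (fun k => u (x ^ n) k - n * u x k) Filter.atTop
        (nhds (F (x ^ n) - n * F x)) :=
      (hF (x ^ n)).sub ((hF x).const_mul _)
    have t2 : Filter.Tendsto (fun k => u (x ^ n) k - n * u x k) Filter.atTop (nhds 0) := by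
      rw [tendsto_zero_iff_abs_tendsto_zero]
      have t3 : Filter.Tendsto (fun k : ℕ => ((n : ℝ) + 1) * D / 2 ^ k) Filter.atTop (nhds 0) := by
        have h5 : Filter.Tendsto (fun k : ℕ => ((n : ℝ) + 1) * D * (1 / 2) ^ k) Filter.atTop
            (nhds (((n : ℝ) + 1) * D * 0)) :=
          (tendsto_pow_atTop_nhds_zero_of_lt_one (by norm_num) (by norm_num)).const_mul _
        rw [mul_zero] at h5
        refine h5.congr (fun k => ?_)
        rw [one_div, inv_pow, div_eq_mul_inv]
      refine squeeze_zero (fun k => abs_nonneg _) (fun k => ?_) t3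
      show |u (x ^ n) k - n * u x k| ≤ _
      have e : u (x ^ n) k - n * u x k = (f ((x ^ 2 ^ k) ^ n) - n * f (x ^ 2 ^ k)) / 2 ^ k := by
        show f ((x ^ n) ^ 2 ^ k) / 2 ^ k - n * (f (x ^ 2 ^ k) / 2 ^ k) = _
        rw [pow_right_comm x n (2 ^ k)]
        ring
      rw [e, abs_div, abs_of_pos (by positivity : (0:ℝ) < 2 ^ k)]
      exact div_le_div_of_nonneg_right (qm_pow hq _ _) (by positivity)
    have := tendsto_nhds_unique t1 t2
    linarith
  refine ⟨F, h1, h2, ?_⟩
  intro x y
  have a1 := h1 (x * y)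
  have a2 := h1 x
  have a3 := h1 y
  have a4 := hq x y
  rw [abs_le] at *
  constructor <;> linarith [a1.1, a1.2, a2.1, a2.2, a3.1, a3.2, a4.1, a4.2]

/-- A quasimorphism on a soluble group is at bounded distance from a homomorphism. -/
theorem qm_soluble (hq : ∀ x y, |f (x * y) - f x - f y| ≤ D) [hs : Group.IsSolvable L] :
    ∃ F : L → ℝ, (∀ x, |F x - f x| ≤ D) ∧ ∀ x y, F (x * y) = F x + F y := by
  obtain ⟨F, h1, h2, h3⟩ := qm_homogenise hq
  obtain ⟨n, hn⟩ := hs.solvable
  exact ⟨F, h1, homog_hom h3 h2 hn⟩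

end Homogenise

end Pool.Agent.SolRO
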