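import Mathlib
import Pool.Agent.SolRO.QM

/-!
# Total submonoids of finitely generated soluble groups

The main step: let `H` be finitely generated and soluble, without nonzero homomorphism to the reals,
and let `B` be an abelian normal subgroup such that no proper total submonoid contains `B`.
Then there is no proper total submonoid at all.
-/

set_option autoImplicit false

open scoped commutatorElement

namespace Pool.Agent.SolRO

variable {H : Type*} [Group H]

/-- The left-invariant total preorder attached to a total submonoid. -/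
def le (P : Submonoid H) (g h : H) : Prop := g⁻¹ * h ∈ P

/-- A submonoid containing each element or its inverse. -/
def Total (P : Submonoid H) : Prop := ∀ g : H, g ∈ P ∨ g⁻¹ ∈ P

section basic

variable {P : Submonoid H}

theorem le_refl' (g : H) : le P g g := by
  unfold le; rw [inv_mul_cancel]; exact one_mem P

theorem le_trans' {a b c : H} (h1 : le P a b) (h2 : le P b c) : le P a c := by
  unfold le at *
  have := mul_mem h1 h2
  rwa [mul_assoc, mul_inv_cancel_left] at this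

theorem le_total' (hP : Total P) (a b : H) : le P a b ∨ le P b a := by
  unfold le
  rcases hP (a⁻¹ * b) with h | h
  · exact Or.inl h
  · right; rw [mul_inv_rev, inv_inv] at h; exact h

theorem le_mul {a b : H} (k : H) (h : le P a b) : le P (k * a) (k * b) := by
  unfold le at *
  rw [mul_inv_rev, mul_assoc, inv_mul_cancel_left]; exact h

theorem le_of_mul {a b : H} (k : H) (h : le P (k * a) (k * b)) : le P a b := by
  have := le_mul k⁻¹ h
  rwa [inv_mul_cancel_left, inv_mul_cancel_left] at this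

end basic

section J

variable (P : Submonoid H)

/-- `J P a g` says that `g` lies between two powers of `a`. -/
def J (a g : H) : Prop := (∃ m : ℤ, le P (a ^ m) g) ∧ (∃ n : ℤ, le P g (a ^ n))

variable {P}

theorem J_self (a : H) : J P a a :=
  ⟨⟨1, by rw [zpow_one]; exact le_refl' a⟩, ⟨1, by rw [zpow_one]; exact le_refl' a⟩⟩

theorem J_one (a : H) : J P a 1 :=
  ⟨⟨0, by rw [zpow_zero]; exact le_refl' _⟩, ⟨0, by rw [zpow_zero]; exact le_refl' _⟩⟩

/-- The elements commuting with `a` in `J a` act on `J a`. -/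
theorem J_mul {a b g : H} (hab : Commute a b) (hb : J P a b) (hg : J P a g) : J P a (b * g) := by
  obtain ⟨⟨m, hm⟩, ⟨n, hn⟩⟩ := hb
  obtain ⟨⟨m', hm'⟩, ⟨n', hn'⟩⟩ := hg
  refine ⟨⟨m' + m, ?_⟩, ⟨n' + n, ?_⟩⟩
  · have h1 := le_mul b hm'
    have h2 := le_mul (a ^ m') hm
    rw [(hab.zpow_left m').eq, ← zpow_add] at h2
    exact le_trans' h2 h1
  · have h1 := le_mul b hn'
    have h2 := le_mul (a ^ n') hn
    rw [(hab.zpow_left n').eq, ← zpow_add] at h2
    exact le_trans' h1 h2

theorem J_inv {a b : H} (hab : Commute a b) (hb : J P a b) : J P a b⁻¹ := by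
  obtain ⟨⟨m, hm⟩, ⟨n, hn⟩⟩ := hb
  refine ⟨⟨-n, ?_⟩, ⟨-m, ?_⟩⟩
  · have h1 := le_mul (b⁻¹ * a ^ (-n)) hn
    have e : b⁻¹ * a ^ (-n) * b = a ^ (-n) := by
      rw [mul_assoc, (hab.zpow_left (-n)).eq, inv_mul_cancel_left]
    rw [e, mul_assoc, ← zpow_add, neg_add_cancel, zpow_zero, mul_one] at h1
    exact h1
  · have h1 := le_mul (b⁻¹ * a ^ (-m)) hm
    have e : b⁻¹ * a ^ (-m) * b = a ^ (-m) := by
      rw [mul_assoc, (hab.zpow_left (-m)).eq, inv_mul_cancel_left]
    rw [e, mul_assoc, ← zpow_add, neg_add_cancel, zpow_zero, mul_one] at h1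
    exact h1

theorem J_zpow {a b : H} (hab : Commute a b) (hb : J P a b) (k : ℤ) : J P a (b ^ k) := by
  have hnat : ∀ n : ℕ, J P a (b ^ n) := by
    intro n
    induction n with
    | zero => rw [pow_zero]; exact J_one a
    | succ n ih =>
      rw [pow_succ']
      exact J_mul hab hb ih
  obtain ⟨n, rfl | rfl⟩ := k.eq_nat_or_neg
  · rw [zpow_natCast]; exact hnat n
  · rw [zpow_neg, zpow_natCast]; exact J_inv (hab.pow_right n) (hnat n)

theorem J_trans {a b g : H} (hab : Commute a b) (hb : J P a b) (hg : J P b g) : J P a g := by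
  obtain ⟨⟨m, hm⟩, ⟨n, hn⟩⟩ := hg
  obtain ⟨m', hm'⟩ := (J_zpow hab hb m).1
  obtain ⟨n', hn'⟩ := (J_zpow hab hb n).2
  exact ⟨⟨m', le_trans' hm' hm⟩, ⟨n', le_trans' hn hn'⟩⟩

theorem J_total (hP : Total P) {a b : H} (hab : Commute a b) : J P a b ∨ J P b a := by
  by_cases h1 : ∃ m : ℤ, le P (a ^ m) b
  · by_cases h2 : ∃ n : ℤ, le P b (a ^ n)
    · exact Or.inl ⟨h1, h2⟩
    · right
      push Not at h2
      have h3 : ∀ n : ℤ, le P (a ^ n) b := fun n => (le_total' hP b (a ^ n)).resolve_left (h2 n)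
      refine ⟨⟨-1, ?_⟩, ⟨1, ?_⟩⟩
      · have h4 := le_mul (a * b⁻¹) (h3 (-1))
        have e : a * b⁻¹ * a ^ (-1 : ℤ) = b ^ (-1 : ℤ) := by
          rw [zpow_neg_one, zpow_neg_one, (hab.inv_right).eq, mul_inv_cancel_right]
        rwa [e, inv_mul_cancel_right] at h4
      · have := h3 1
        rwa [zpow_one] at this ⊢
  · right
    push Not at h1
    have h3 : ∀ n : ℤ, le P b (a ^ n) := fun n => (le_total' hP (a ^ n) b).resolve_left (h1 n)
    refine ⟨⟨1, ?_⟩, ⟨-1, ?_⟩⟩
    · have := h3 1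
      rwa [zpow_one] at this ⊢
    · have h4 := le_mul (a * b⁻¹) (h3 (-1))
      have e : a * b⁻¹ * a ^ (-1 : ℤ) = b ^ (-1 : ℤ) := by
        rw [zpow_neg_one, zpow_neg_one, (hab.inv_right).eq, mul_inv_cancel_right]
      rwa [e, inv_mul_cancel_right] at h4

/-- Translation by `h` when `h⁻¹` lies in `J a`. -/
theorem J_conj {a g h : H} (hh : J P a h⁻¹) (hg : J P a g) : J P (h * a * h⁻¹) (h * g) := by
  obtain ⟨⟨k, hk⟩, ⟨l, hl⟩⟩ := hh
  obtain ⟨⟨m, hm⟩, ⟨n, hn⟩⟩ := hg
  refine ⟨⟨m - l, ?_⟩, ⟨n - k, ?_⟩⟩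
  · rw [conj_zpow, mul_assoc]
    apply le_mul
    have h1 := le_mul (a ^ (m - l)) hl
    rw [← zpow_add, sub_add_cancel] at h1
    exact le_trans' h1 hm
  · rw [conj_zpow, mul_assoc]
    apply le_mul
    have h1 := le_mul (a ^ (n - k)) hk
    rw [← zpow_add, sub_add_cancel] at h1
    exact le_trans' hn h1

theorem J_conj' {a b h : H} (hab : Commute a b) (hh : J P a h⁻¹) (hb : J P a b) :
    J P (h * a * h⁻¹) (h * b * h⁻¹) := by
  rw [mul_assoc h b]
  exact J_conj hh (J_mul hab hb hh)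

end J

section step

variable {P : Submonoid H} (hP : Total P) (B : Subgroup H) [hBn : B.Normal]
  (hcomm : ∀ x ∈ B, ∀ y ∈ B, x * y = y * x)
  (hB : ∀ Q : Submonoid H, Total Q → (∀ b ∈ B, b ∈ Q) → ∀ g, g ∈ Q)

include hP hB in
/-- `B` is coinitial. -/
theorem coinitial (g : H) : ∃ b ∈ B, le P b g := by
  let Q : Submonoid H :=
    { carrier := {g | ∃ b ∈ B, le P b g}
      one_mem' := ⟨1, one_mem _, le_refl' _⟩
      mul_mem' := by
        rintro g h ⟨b, hb, hbg⟩ ⟨c, hc, hch⟩
        refine ⟨g * c * g⁻¹ * b, mul_mem (hBn.conj_mem c hc g) hb, ?_⟩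
        unfold le at *
        have := mul_mem hbg hch
        convert this using 1
        group }
  have hQ1 : ∀ x ∈ P, x ∈ Q := fun x hx => ⟨1, one_mem _, by unfold le; simpa using hx⟩
  have hQ2 : Total Q := fun g => (hP g).imp (hQ1 _) (hQ1 _)
  exact hB Q hQ2 (fun b hb => ⟨b, hb, le_refl' _⟩) g

include hP hB in
/-- `B` is cofinal. -/
theorem cofinal (g : H) : ∃ b ∈ B, le P g b := by
  obtain ⟨b, hb, h⟩ := coinitial hP B hB g⁻¹
  refine ⟨g * b⁻¹ * g⁻¹, hBn.conj_mem _ (inv_mem hb) g, ?_⟩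
  unfold le at *
  convert h using 1
  group

include hP hB hcomm in
theorem exists_J (g : H) : ∃ a ∈ B, J P a g := by
  obtain ⟨b, hb, h1⟩ := coinitial hP B hB g
  obtain ⟨c, hc, h2⟩ := cofinal hP B hB g
  rcases J_total hP (hcomm b hb c hc : Commute b c) with h | h
  · refine ⟨b, hb, ⟨1, by simpa using h1⟩, ?_⟩
    obtain ⟨n, hn⟩ := h.2
    exact ⟨n, le_trans' h2 hn⟩
  · refine ⟨c, hc, ?_, ⟨1, by simpa using h2⟩⟩
    obtain ⟨n, hn⟩ := h.1
    exact ⟨n, le_trans' hn h1⟩

include hP hB hcomm in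
theorem exists_J_finset (s : Finset H) : ∃ a ∈ B, ∀ g ∈ s, J P a g := by
  classical
  induction s using Finset.induction_on with
  | empty => exact ⟨1, one_mem _, by simp⟩
  | insert x s hx ih =>
    obtain ⟨a, ha, h1⟩ := ih
    obtain ⟨b, hb, h2⟩ := exists_J hP B hcomm hB x
    rcases J_total hP (hcomm a ha b hb : Commute a b) with h | h
    · refine ⟨a, ha, fun g hg => ?_⟩
      rcases Finset.mem_insert.mp hg with rfl | hg
      · exact J_trans (hcomm a ha b hb) h h2
      · exact h1 g hg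
    · refine ⟨b, hb, fun g hg => ?_⟩
      rcases Finset.mem_insert.mp hg with rfl | hg
      · exact h2
      · exact J_trans (hcomm b hb a ha) h (h1 g hg)

include hP hB hcomm in
/-- In the finitely generated case some element of `B` is unbounded. -/
theorem exists_unbounded [hfg : Group.FG H] : ∃ a ∈ B, ∀ g, J P a g := by
  classical
  choose α hαB hα using exists_J_finset hP B hcomm hB
  let U : Ultrafilter (Finset H) := Ultrafilter.of Filter.atTop
  have hU : ∀ g : H, ∀ᶠ s in (U : Filter (Finset H)), J P (α s) g := by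
    intro g
    have h1 : ∀ᶠ s in (Filter.atTop : Filter (Finset H)), J P (α s) g := by
      filter_upwards [Filter.eventually_ge_atTop ({g} : Finset H)] with s hs
      exact hα s g (hs (Finset.mem_singleton_self g))
    exact Ultrafilter.of_le _ h1
  have hBc : ∀ h s, h * α s * h⁻¹ ∈ B := fun h s => hBn.conj_mem _ (hαB s) h
  let Q : Submonoid H :=
    { carrier := {h | ∀ᶠ s in (U : Filter (Finset H)), J P (h * α s * h⁻¹) (α s)}
      one_mem' := by
        refine Filter.Eventually.of_forall (fun s => ?_)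
        rw [one_mul, inv_one, mul_one]
        exact J_self _
      mul_mem' := by
        intro h k hh hk
        have hh' : ∀ᶠ s in (U : Filter (Finset H)), J P (h * α s * h⁻¹) (α s) := hh
        have hk' : ∀ᶠ s in (U : Filter (Finset H)), J P (k * α s * k⁻¹) (α s) := hk
        show ∀ᶠ s in (U : Filter (Finset H)), J P (h * k * α s * (h * k)⁻¹) (α s)
        filter_upwards [hh', hk', hU h⁻¹] with s h1 h2 h3
        have h4 : J P (k * α s * k⁻¹) h⁻¹ := J_trans (hcomm _ (hBc k s) _ (hαB s)) h2 h3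
        have h5 := J_conj' (hcomm _ (hBc k s) _ (hαB s) : Commute _ _) h4 h2
        have e : h * k * α s * (h * k)⁻¹ = h * (k * α s * k⁻¹) * h⁻¹ := by group
        rw [e]
        refine J_trans ?_ h5 h1
        refine hcomm _ ?_ _ (hBc h s)
        exact hBn.conj_mem _ (hBc k s) h }
  have hQt : Total Q := by
    intro h
    have h1 : ∀ᶠ s in (U : Filter (Finset H)),
        (J P (h * α s * h⁻¹) (α s) ∨ J P (h⁻¹ * α s * h⁻¹⁻¹) (α s)) := by
      filter_upwards [hU h] with s h2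
      rcases J_total hP (hcomm _ (hBc h s) _ (hαB s) : Commute _ _) with h4 | h4
      · exact Or.inl h4
      · right
        have h5 : J P (α s) h⁻¹⁻¹ := by rw [inv_inv]; exact h2
        have h6 := J_conj' (h := h⁻¹) (hcomm _ (hαB s) _ (hBc h s) : Commute _ _) h5 h4
        have e : h⁻¹ * (h * α s * h⁻¹) * h⁻¹⁻¹ = α s := by group
        rw [e] at h6
        exact h6
    rcases Ultrafilter.eventually_or.mp h1 with h2 | h2
    · exact Or.inl h2
    · exact Or.inr h2
  have hQB : ∀ b ∈ B, b ∈ Q := by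
    intro b hb
    show ∀ᶠ s in (U : Filter (Finset H)), J P (b * α s * b⁻¹) (α s)
    refine Filter.Eventually.of_forall (fun s => ?_)
    rw [hcomm b hb _ (hαB s), mul_inv_cancel_right]
    exact J_self _
  have hQtop : ∀ g, g ∈ Q := hB Q hQt hQB
  obtain ⟨S, hS⟩ := Group.fg_def.mp hfg
  have hev : ∀ᶠ s in (U : Filter (Finset H)), ∀ h ∈ S,
      (J P (h * α s * h⁻¹) (α s) ∧ J P (h⁻¹ * α s * h⁻¹⁻¹) (α s)) ∧ J P (α s) h ∧ J P (α s) h⁻¹ := by
    rw [Filter.eventually_all_finset]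
    intro h _
    exact ((hQtop h).and (hQtop h⁻¹)).and ((hU h).and (hU h⁻¹))
  obtain ⟨s, hs⟩ := hev.exists
  refine ⟨α s, hαB s, ?_⟩
  have key : ∀ h : H, (∀ g, J P (α s) g → J P (α s) (h * g)) ∧
      (∀ g, J P (α s) g → J P (α s) (h⁻¹ * g)) := by
    intro h
    have hmem : h ∈ Subgroup.closure (S : Set H) := by rw [hS]; trivial
    have aux : ∀ h, J P (h⁻¹ * α s * h⁻¹⁻¹) (α s) → J P (α s) h⁻¹ →
        ∀ g, J P (α s) g → J P (α s) (h * g) := by
      intro h h1 h2 g hg
      have h3 := J_conj h2 hg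
      have h4 : J P (h⁻¹ * α s * h⁻¹⁻¹) h⁻¹ :=
        J_trans (hcomm _ (hBc h⁻¹ s) _ (hαB s)) h1 h2
      have h5 := J_conj' (hcomm _ (hBc h⁻¹ s) _ (hαB s) : Commute _ _) h4 h1
      have e : h * (h⁻¹ * α s * h⁻¹⁻¹) * h⁻¹ = α s := by group
      rw [e] at h5
      exact J_trans (hcomm _ (hαB s) _ (hBc h s)) h5 h3
    refine Subgroup.closure_induction (p := fun h _ => (∀ g, J P (α s) g → J P (α s) (h * g)) ∧
      (∀ g, J P (α s) g → J P (α s) (h⁻¹ * g))) ?_ ?_ ?_ ?_ hmem
    · intro x hx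
      obtain ⟨⟨h1, h2⟩, h3, h4⟩ := hs x hx
      refine ⟨aux x h2 h4, aux x⁻¹ ?_ ?_⟩
      · rw [inv_inv]; exact h1
      · rw [inv_inv]; exact h3
    · simp
    · rintro x y _ _ ⟨hx1, hx2⟩ ⟨hy1, hy2⟩
      refine ⟨fun g hg => ?_, fun g hg => ?_⟩
      · rw [mul_assoc]; exact hx1 _ (hy1 _ hg)
      · rw [mul_inv_rev, mul_assoc]; exact hy2 _ (hx2 _ hg)
    · rintro x _ ⟨hx1, hx2⟩
      exact ⟨hx2, by rw [inv_inv]; exact hx1⟩
  intro g
  have := (key g).1 1 (J_one _)
  rwa [mul_one] at this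

end step

end Pool.Agent.SolRO
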