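import Mathlib
import Pool.Agent.SolRO.Step

/-!
# No proper total submonoid in a finitely generated soluble group without homomorphisms to ℝ
-/

set_option autoImplicit false

open scoped commutatorElement

namespace Pool.Agent.SolRO

variable {H : Type*} [Group H]

section unbounded

variable {P : Submonoid H} (hP : Total P)
  (hZ : ∀ φ : H → ℝ, (∀ x y, φ (x * y) = φ x + φ y) → ∀ x, φ x = 0)
  (B : Subgroup H) [hBn : B.Normal]
  (hcomm : ∀ x ∈ B, ∀ y ∈ B, x * y = y * x)

theorem le_zpow {a : H} (haP : a ∈ P) {m n : ℤ} (h : m ≤ n) : le P (a ^ m) (a ^ n) := by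
  unfold le
  rw [← zpow_neg, ← zpow_add]
  obtain ⟨k, hk⟩ := Int.eq_ofNat_of_zero_le (sub_nonneg.mpr h)
  have : -m + n = (k : ℤ) := by omega
  rw [this, zpow_natCast]
  exact pow_mem haP k

theorem of_le_zpow {a : H} (haP : a ∈ P) (haP' : a⁻¹ ∉ P) {m n : ℤ}
    (h : le P (a ^ m) (a ^ n)) : m ≤ n := by
  by_contra hlt
  push Not at hlt
  apply haP'
  unfold le at h
  rw [← zpow_neg, ← zpow_add] at h
  obtain ⟨k, hk⟩ := Int.eq_ofNat_of_zero_le (by omega : 0 ≤ m - n - 1)
  have h2 := mul_mem (pow_mem haP k) h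
  rw [← zpow_natCast, ← zpow_add] at h2
  have e : (k : ℤ) + (-m + n) = -1 := by omega
  rwa [e, zpow_neg_one] at h2

include hP in
theorem exists_floor {a : H} (haP : a ∈ P) (haP' : a⁻¹ ∉ P) (hJ : ∀ g, J P a g) (g : H) :
    ∃ k : ℤ, le P (a ^ k) g ∧ (∀ m : ℤ, le P (a ^ m) g → m ≤ k) ∧ le P g (a ^ (k + 1)) := by
  obtain ⟨⟨m, hm⟩, ⟨n, hn⟩⟩ := hJ g
  obtain ⟨k, hk1, hk2⟩ := Int.exists_greatest_of_bdd (P := fun k => le P (a ^ k) g)
    ⟨n, fun z hz => of_le_zpow haP haP' (le_trans' hz hn)⟩ ⟨m, hm⟩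
  refine ⟨k, hk1, hk2, ?_⟩
  rcases le_total' hP (a ^ (k + 1)) g with h | h
  · have := hk2 _ h
    omega
  · exact h

include hP hZ hcomm in
theorem unbounded_false [hHs : Group.IsSolvable H] {a : H} (haB : a ∈ B) (haP : a ∈ P) (haP' : a⁻¹ ∉ P)
    (hJ : ∀ g, J P a g) : False := by
  choose N hN1 hN2 hN3 using exists_floor hP haP haP' hJ
  have hmono : ∀ x y, le P x y → N x ≤ N y := fun x y h => hN2 _ _ (le_trans' (hN1 x) h)
  have hNa : ∀ k : ℤ, N (a ^ k) = k := by
    intro k
    apply le_antisymm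
    · exact of_le_zpow haP haP' (hN1 (a ^ k))
    · exact hN2 _ _ (le_refl' _)
  have hca : ∀ x ∈ B, ∀ k : ℤ, x * a ^ k = a ^ k * x := fun x hx k =>
    hcomm x hx _ (zpow_mem haB k)
  -- the homomorphism on B
  have hqB : ∀ x y : B, |((N ((x * y : B) : H) : ℤ) : ℝ) - (N (x : H) : ℝ) - (N (y : H) : ℝ)| ≤ 2 := by
    intro x y
    have h1 : N (x : H) + N (y : H) ≤ N ((x : H) * y) := by
      apply hN2
      have e1 := le_mul (x : H) (hN1 (y : H))
      have e2 := le_mul (a ^ (N (y : H))) (hN1 (x : H))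
      rw [← hca x x.2, ← zpow_add, add_comm] at e2
      exact le_trans' e2 e1
    have h2 : N ((x : H) * y) ≤ N (x : H) + N (y : H) + 2 := by
      rw [← hNa (N (x : H) + N (y : H) + 2)]
      apply hmono
      have e1 := le_mul (x : H) (hN3 (y : H))
      have e2 := le_mul (a ^ (N (y : H) + 1)) (hN3 (x : H))
      rw [← hca x x.2, ← zpow_add] at e2
      have e3 := le_trans' e1 e2
      convert e3 using 2
      ring
    have h1' : (N (x : H) : ℝ) + (N (y : H) : ℝ) ≤ (N ((x : H) * y) : ℝ) := by exact_mod_cast h1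
    have h2' : (N ((x : H) * y) : ℝ) ≤ (N (x : H) : ℝ) + (N (y : H) : ℝ) + 2 := by exact_mod_cast h2
    rw [Subgroup.coe_mul, abs_le]
    constructor <;> linarith
  obtain ⟨τ, hτ1, hτ2⟩ := qm_soluble (f := fun x : B => ((N (x : H) : ℤ) : ℝ)) hqB
  have hτ1' : τ 1 = 0 := by
    have := hτ2 1 1
    rw [mul_one] at this
    linarith
  have hτpow : ∀ (x : B) (n : ℕ), τ (x ^ n) = n * τ x := by
    intro x n
    induction n with
    | zero => simp [hτ1']
    | succ n ih => rw [pow_succ, hτ2, ih]; push_cast; ring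
  have hτinv : ∀ x : B, τ x⁻¹ = - τ x := by
    intro x
    have := hτ2 x x⁻¹
    rw [mul_inv_cancel, hτ1'] at this
    linarith
  have hτzpow : ∀ (x : B) (n : ℤ), τ (x ^ n) = n * τ x := by
    intro x n
    obtain ⟨k, rfl | rfl⟩ := n.eq_nat_or_neg
    · rw [zpow_natCast, hτpow]; simp
    · rw [zpow_neg, hτinv, zpow_natCast, hτpow]; simp
  let a' : B := ⟨a, haB⟩
  have hτa : τ a' = 1 := by
    have : τ a' - 1 = 0 := by
      apply eq_zero_of_forall_nat_mul_le (D := 2)
      intro n
      have h1 := hτ1 (a' ^ n)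
      rw [hτpow] at h1
      have e : ((a' ^ n : B) : H) = a ^ (n : ℤ) := by simp [a']
      simp only [e, hNa] at h1
      convert h1 using 2
      push_cast; ring
    linarith
  have hτle : ∀ x y : B, le P (x : H) y → τ x ≤ τ y + 4 := by
    intro x y h
    have h1 := hτ1 x
    have h2 := hτ1 y
    have h3 : (N (x : H) : ℝ) ≤ N (y : H) := by exact_mod_cast hmono _ _ h
    rw [abs_le] at h1 h2
    linarith [h1.1, h1.2, h2.1, h2.2]
  -- conjugation
  let cj : H → B → B := fun h x => ⟨h * x * h⁻¹, hBn.conj_mem _ x.2 h⟩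
  have hcjmul : ∀ h x y, cj h (x * y) = cj h x * cj h y := by
    intro h x y
    apply Subtype.ext
    show h * ((x * y : B) : H) * h⁻¹ = (h * x * h⁻¹) * (h * y * h⁻¹)
    rw [Subgroup.coe_mul]; group
  have hcjzpow : ∀ h x (n : ℤ), cj h (x ^ n) = (cj h x) ^ n := by
    intro h x n
    apply Subtype.ext
    show h * ((x ^ n : B) : H) * h⁻¹ = (((cj h x) ^ n : B) : H)
    rw [Subgroup.coe_zpow, Subgroup.coe_zpow]
    show _ = (h * x * h⁻¹) ^ n
    rw [conj_zpow]
  have hcj2 : ∀ g h x, cj (g * h) x = cj g (cj h x) := by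
    intro g h x
    apply Subtype.ext
    show g * h * x * (g * h)⁻¹ = g * (h * x * h⁻¹) * g⁻¹
    group
  have hcjle : ∀ h : H, ∃ C : ℝ, ∀ x y : B, le P (x : H) y → τ (cj h x) ≤ τ (cj h y) + C := by
    intro h
    obtain ⟨⟨p, hp⟩, ⟨q, hq⟩⟩ := hJ h⁻¹
    refine ⟨((q - p : ℤ) : ℝ) * τ (cj h a') + 4, ?_⟩
    intro x y hxy
    have h1 : le P ((cj h x : B) : H) ((cj h y * (cj h a') ^ (q - p) : B) : H) := by
      rw [← hcjzpow, ← hcjmul]
      show le P (h * x * h⁻¹) (h * ((y * a' ^ (q - p) : B) : H) * h⁻¹)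
      rw [mul_assoc, mul_assoc]
      apply le_mul
      rw [Subgroup.coe_mul, Subgroup.coe_zpow]
      show le P ((x : H) * h⁻¹) ((y : H) * a ^ (q - p) * h⁻¹)
      have e1 := le_mul (x : H) hq
      have e2 := le_mul (a ^ q) hxy
      rw [← hca x x.2, ← hca y y.2] at e2
      have e3 := le_mul ((y : H) * a ^ (q - p)) hp
      rw [mul_assoc (y : H), ← zpow_add, sub_add_cancel] at e3
      exact le_trans' (le_trans' e1 e2) e3
    have h2 := hτle _ _ h1
    rw [hτ2, hτzpow] at h2
    linarith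
  have hnN : ∀ (b : B) (n : ℕ), |((N ((b : H) ^ n) : ℤ) : ℝ) - n * τ b| ≤ 2 := by
    intro b n
    have := hτ1 (b ^ n)
    rw [hτpow, abs_sub_comm] at this
    simpa using this
  have hscale : ∀ (h : H) (b : B), τ (cj h b) = τ (cj h a') * τ b := by
    intro h b
    obtain ⟨C, hC⟩ := hcjle h
    have key : τ (cj h b) - τ (cj h a') * τ b = 0 := by
      apply eq_zero_of_forall_nat_mul_le (D := |C| + 3 * |τ (cj h a')|)
      intro n
      set k := N ((b : H) ^ n) with hk
      have h1 : le P (((a' ^ k : B)) : H) ((b ^ n : B) : H) := by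
        rw [Subgroup.coe_zpow, Subgroup.coe_pow]
        exact hN1 _
      have h2 : le P ((b ^ n : B) : H) (((a' ^ (k + 1) : B)) : H) := by
        rw [Subgroup.coe_zpow, Subgroup.coe_pow]
        exact hN3 _
      have h3 := hC _ _ h1
      have h4 := hC _ _ h2
      have e1 : ∀ m : ℤ, τ (cj h (a' ^ m)) = m * τ (cj h a') := by
        intro m; rw [hcjzpow, hτzpow]
      have e2 : τ (cj h (b ^ n)) = n * τ (cj h b) := by
        rw [← zpow_natCast, hcjzpow, hτzpow]; simp
      rw [e1, e2] at h3 h4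
      have h5 := hnN b n
      rw [← hk] at h5
      set c := τ (cj h a')
      have h6 : |(k : ℝ) * c - n * τ b * c| ≤ 2 * |c| := by
        rw [← sub_mul, abs_mul]
        exact mul_le_mul_of_nonneg_right h5 (abs_nonneg _)
      rw [abs_le] at h6 ⊢
      push_cast at h4
      have h7 := abs_le.mp (le_refl |c|)
      have h8 := abs_le.mp (le_refl |C|)
      have e3 : (n : ℝ) * (τ (cj h b) - c * τ b) = n * τ (cj h b) - n * τ b * c := by ring
      rw [e3]
      constructor
      · linarith [h6.1, h6.2, h7.1, h7.2, h8.1, h8.2, abs_nonneg c]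
      · linarith [h6.1, h6.2, h7.1, h7.2, h8.1, h8.2, abs_nonneg c]
    linarith
  have hc1 : τ (cj 1 a') = 1 := by
    have e : cj 1 a' = a' := by
      apply Subtype.ext
      show 1 * a * 1⁻¹ = a
      group
    rw [e, hτa]
  have hcmul : ∀ g h, τ (cj (g * h) a') = τ (cj g a') * τ (cj h a') := by
    intro g h
    rw [hcj2, hscale]
  have hcne : ∀ g, τ (cj g a') ≠ 0 := by
    intro g h0
    have := hcmul g g⁻¹
    rw [mul_inv_cancel, hc1, h0, zero_mul] at this
    exact one_ne_zero this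
  have habs : ∀ g, |τ (cj g a')| = 1 := by
    intro g
    have h1 := hZ (fun g => Real.log |τ (cj g a')|) (by
      intro x y
      rw [hcmul, abs_mul, Real.log_mul (abs_ne_zero.mpr (hcne x)) (abs_ne_zero.mpr (hcne y))]) g
    have h2 : 0 < |τ (cj g a')| := abs_pos.mpr (hcne g)
    exact Real.eq_one_of_pos_of_log_eq_zero h2 h1
  have hpos : ∀ g, 0 ≤ τ (cj g a') := by
    intro g
    obtain ⟨C, hC⟩ := hcjle g
    by_contra hneg
    push Not at hneg
    obtain ⟨n, hn⟩ := exists_nat_gt (C / (- τ (cj g a')))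
    rw [div_lt_iff₀ (by linarith)] at hn
    have h1 : le P ((1 : B) : H) ((a' ^ n : B) : H) := by
      rw [Subgroup.coe_one, Subgroup.coe_pow]
      unfold le
      rw [inv_one, one_mul]
      exact pow_mem haP n
    have h2 := hC _ _ h1
    have e1 : τ (cj g 1) = 0 := by
      have := hcjzpow g 1 0
      rw [zpow_zero, zpow_zero] at this
      rw [this, hτ1']
    have e2 : τ (cj g (a' ^ n)) = n * τ (cj g a') := by
      rw [← zpow_natCast, hcjzpow, hτzpow]; simp
    rw [e1, e2] at h2
    linarith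
  have hone : ∀ g, τ (cj g a') = 1 := by
    intro g
    have := habs g
    rwa [abs_of_nonneg (hpos g)] at this
  have hinv : ∀ g b, τ (cj g b) = τ b := by
    intro g b
    rw [hscale, hone, one_mul]
  -- elements of B with τ = 0 move points by less than a
  have hsmall : ∀ b : B, τ b = 0 → ∀ x : H, le P ((b : H) * x) (a * x) ∧
      le P (a⁻¹ * x) ((b : H) * x) := by
    intro b hb x
    obtain ⟨⟨p, hp⟩, ⟨q, hq⟩⟩ := hJ x
    have hab : ∀ k : ℤ, a ^ k * (b : H) = b * a ^ k := fun k => (hca b b.2 k).symm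
    constructor
    · rcases le_total' hP ((b : H) * x) (a * x) with h | h
      · exact h
      · exfalso
        have hn : ∀ n : ℕ, le P (a ^ (n : ℤ) * x) ((b : H) ^ n * x) := by
          intro n
          induction n with
          | zero => simp; exact le_refl' _
          | succ n ih =>
            have e1 := le_mul (a ^ (n : ℤ)) h
            have e2 := le_mul (b : H) ih
            have e3 : a ^ (n : ℤ) * (a * x) = a ^ ((n + 1 : ℕ) : ℤ) * x := by
              rw [← mul_assoc, ← zpow_add_one]; push_cast; rfl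
            have e4 : a ^ (n : ℤ) * ((b : H) * x) = b * (a ^ (n : ℤ) * x) := by
              rw [← mul_assoc, hab, mul_assoc]
            have e5 : (b : H) * ((b : H) ^ n * x) = (b : H) ^ (n + 1) * x := by
              rw [← mul_assoc, ← pow_succ']
            rw [e3, e4] at e1
            rw [e5] at e2
            exact le_trans' e1 e2
        -- compare in B
        obtain ⟨n, hn'⟩ := exists_nat_gt ((q : ℝ) - p + 4)
        have e1 := le_mul (a ^ (n : ℤ)) hp
        have e2 := le_mul ((b : H) ^ n) hq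
        have e3 := le_trans' (le_trans' e1 (hn n)) e2
        have e4 : le P ((a' ^ ((n : ℤ) + p) : B) : H) ((b ^ n * a' ^ q : B) : H) := by
          rw [Subgroup.coe_mul, Subgroup.coe_zpow, Subgroup.coe_zpow, Subgroup.coe_pow]
          show le P (a ^ ((n : ℤ) + p)) _
          rw [zpow_add]
          exact e3
        have e5 := hτle _ _ e4
        rw [hτ2, hτzpow, hτzpow, hτpow, hb, hτa] at e5
        push_cast at e5
        linarith
    · rcases le_total' hP (a⁻¹ * x) ((b : H) * x) with h | h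
      · exact h
      · exfalso
        have hn : ∀ n : ℕ, le P ((b : H) ^ n * x) (a ^ (-(n : ℤ)) * x) := by
          intro n
          induction n with
          | zero => simp; exact le_refl' _
          | succ n ih =>
            have e1 := le_mul (a ^ (-(n : ℤ))) h
            have e2 := le_mul (b : H) ih
            have e3 : a ^ (-(n : ℤ)) * (a⁻¹ * x) = a ^ (-((n + 1 : ℕ) : ℤ)) * x := by
              rw [← mul_assoc, ← zpow_sub_one]; congr 2; push_cast; ring
            have e4 : a ^ (-(n : ℤ)) * ((b : H) * x) = b * (a ^ (-(n : ℤ)) * x) := by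
              rw [← mul_assoc, hab, mul_assoc]
            have e5 : (b : H) * ((b : H) ^ n * x) = (b : H) ^ (n + 1) * x := by
              rw [← mul_assoc, ← pow_succ']
            rw [e3, e4] at e1
            rw [e5] at e2
            exact le_trans' e2 e1
        obtain ⟨n, hn'⟩ := exists_nat_gt ((q : ℝ) - p + 4)
        have e1 := le_mul ((b : H) ^ n) hp
        have e2 := le_mul (a ^ (-(n : ℤ))) hq
        have e3 := le_trans' (le_trans' e1 (hn n)) e2
        have e4 : le P ((b ^ n * a' ^ p : B) : H) ((a' ^ (-(n : ℤ) + q) : B) : H) := by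
          rw [Subgroup.coe_mul, Subgroup.coe_zpow, Subgroup.coe_zpow, Subgroup.coe_pow]
          show le P _ (a ^ (-(n : ℤ) + q))
          rw [zpow_add]
          exact e3
        have e5 := hτle _ _ e4
        rw [hτ2, hτzpow, hτzpow, hτpow, hb, hτa] at e5
        push_cast at e5
        linarith
  have hquasi : ∀ (g : H) (k : ℤ), le P (g * a ^ k) (a ^ (k + 1) * g) ∧
      le P (a ^ (k - 1) * g) (g * a ^ k) := by
    intro g k
    let b : B := cj g (a' ^ k) * a' ^ (-k)
    have hb : τ b = 0 := by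
      show τ (cj g (a' ^ k) * a' ^ (-k)) = 0
      rw [hτ2, hinv, hτzpow, hτzpow, hτa]
      push_cast; ring
    have hb' : (b : H) = g * a ^ k * g⁻¹ * a ^ (-k) := by
      show ((cj g (a' ^ k) * a' ^ (-k) : B) : H) = _
      rw [Subgroup.coe_mul, Subgroup.coe_zpow]
      show g * ((a' ^ k : B) : H) * g⁻¹ * a ^ (-k) = _
      rw [Subgroup.coe_zpow]
    obtain ⟨h1, h2⟩ := hsmall b hb (a ^ k * g)
    have e1 : (b : H) * (a ^ k * g) = g * a ^ k := by
      rw [hb']; group
    have e2 : a * (a ^ k * g) = a ^ (k + 1) * g := by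
      rw [← mul_assoc, zpow_add_one, (Commute.self_zpow a k).eq]
    have e3 : a⁻¹ * (a ^ k * g) = a ^ (k - 1) * g := by
      rw [← mul_assoc, zpow_sub_one, ((Commute.refl a).inv_left.zpow_right k).eq]
    rw [e1, e2] at h1
    rw [e1, e3] at h2
    exact ⟨h1, h2⟩
  have hqH : ∀ x y : H, |((N (x * y) : ℤ) : ℝ) - (N x : ℝ) - (N y : ℝ)| ≤ 3 := by
    intro x y
    have h1 : N x + N y - 1 ≤ N (x * y) := by
      apply hN2
      have e1 := le_mul x (hN1 y)
      have e2 := (hquasi x (N y)).2
      have e3 := le_mul (a ^ (N y - 1)) (hN1 x)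
      rw [← zpow_add] at e3
      have e4 := le_trans' (le_trans' e3 e2) e1
      convert e4 using 2
      ring
    have h2 : N (x * y) ≤ N x + N y + 3 := by
      rw [← hNa (N x + N y + 3)]
      apply hmono
      have e1 := le_mul x (hN3 y)
      have e2 := (hquasi x (N y + 1)).1
      have e3 := le_mul (a ^ (N y + 1 + 1)) (hN3 x)
      rw [← zpow_add] at e3
      have e4 := le_trans' (le_trans' e1 e2) e3
      convert e4 using 2
      ring
    have h1' : (N x : ℝ) + (N y : ℝ) - 1 ≤ (N (x * y) : ℝ) := by exact_mod_cast h1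
    have h2' : (N (x * y) : ℝ) ≤ (N x : ℝ) + (N y : ℝ) + 3 := by exact_mod_cast h2
    rw [abs_le]
    constructor <;> linarith
  obtain ⟨T, hT1, hT2⟩ := qm_soluble (f := fun x : H => ((N x : ℤ) : ℝ)) hqH
  have hT0 := hZ T hT2
  have := hT1 (a ^ (4 : ℤ))
  simp only [hNa, hT0] at this
  norm_num at this

end unbounded

/-- A finitely generated soluble group without nonzero homomorphism to the reals has no proper
total submonoid. -/
theorem no_total (n : ℕ) : ∀ (H : Type) [Group H] [Group.FG H], derivedSeries H n = ⊥ →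
    (∀ φ : H → ℝ, (∀ x y, φ (x * y) = φ x + φ y) → ∀ x, φ x = 0) →
    ∀ P : Submonoid H, Total P → ∀ g, g ∈ P := by
  induction n with
  | zero =>
    intro H _ _ hn _ P _ g
    have hg : g ∈ derivedSeries H 0 := by rw [derivedSeries_zero]; trivial
    rw [hn, Subgroup.mem_bot] at hg
    rw [hg]; exact one_mem P
  | succ n ih =>
    intro H _ _ hn hZ P hP
    have hHs : Group.IsSolvable H := ⟨⟨n + 1, hn⟩⟩
    by_contra hPne
    push Not at hPne
    let B := derivedSeries H n
    have hBn : B.Normal := derivedSeries_normal H n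
    have hcomm : ∀ x ∈ B, ∀ y ∈ B, x * y = y * x := by
      intro x hx y hy
      have h1 : ⁅x, y⁆ ∈ derivedSeries H (n + 1) := by
        rw [derivedSeries_succ]
        exact Subgroup.commutator_mem_commutator hx hy
      rw [hn, Subgroup.mem_bot] at h1
      exact commutatorElement_eq_one_iff_mul_comm.mp h1
    have hB : ∀ Q : Submonoid H, Total Q → (∀ b ∈ B, b ∈ Q) → ∀ g, g ∈ Q := by
      intro Q hQ hBQ g
      let Q' : Submonoid (H ⧸ B) := Q.map (QuotientGroup.mk' B)
      have hQ't : Total Q' := by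
        intro x
        obtain ⟨h, rfl⟩ := QuotientGroup.mk'_surjective B x
        rcases hQ h with h1 | h1
        · exact Or.inl ⟨h, h1, rfl⟩
        · exact Or.inr ⟨h⁻¹, h1, rfl⟩
      have hds : derivedSeries (H ⧸ B) n = ⊥ := by
        have h1 := map_derivedSeries_eq (QuotientGroup.mk'_surjective B) n
        rw [← h1, Subgroup.map_eq_bot_iff, QuotientGroup.ker_mk']
      have hZ' : ∀ φ : H ⧸ B → ℝ, (∀ x y, φ (x * y) = φ x + φ y) → ∀ x, φ x = 0 := by
        intro φ hφ x
        obtain ⟨h, rfl⟩ := QuotientGroup.mk'_surjective B x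
        exact hZ (fun h => φ (QuotientGroup.mk' B h)) (fun x y => by
          simp only [map_mul, hφ]) h
      have hmem := ih (H ⧸ B) hds hZ' Q' hQ't (QuotientGroup.mk' B g)
      obtain ⟨h, hh, e⟩ := hmem
      have e' : h⁻¹ * g ∈ B := QuotientGroup.eq.mp e
      have := mul_mem hh (hBQ _ e')
      rwa [mul_inv_cancel_left] at this
    obtain ⟨a, haB, hJ⟩ := exists_unbounded hP B hcomm hB
    -- a and its inverse are not both in P
    have hnot : ∀ a : H, (∀ g, J P a g) → ¬ (a ∈ P ∧ a⁻¹ ∈ P) := by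
      rintro a hJ ⟨h1, h2⟩
      obtain ⟨g, hg⟩ := hPne
      apply hg
      obtain ⟨⟨m, hm⟩, _⟩ := hJ g
      have h3 : a ^ m ∈ P := by
        obtain ⟨k, rfl | rfl⟩ := m.eq_nat_or_neg
        · rw [zpow_natCast]; exact pow_mem h1 k
        · rw [zpow_neg, zpow_natCast, ← inv_pow]; exact pow_mem h2 k
      have := mul_mem h3 hm
      rwa [mul_inv_cancel_left] at this
    rcases hP a with h1 | h1
    · exact unbounded_false hP hZ B hcomm haB h1 (fun h2 => hnot a hJ ⟨h1, h2⟩) hJ
    · have hJ' : ∀ g, J P a⁻¹ g := by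
        intro g
        obtain ⟨⟨m, hm⟩, ⟨n, hn⟩⟩ := hJ g
        exact ⟨⟨-m, by rwa [inv_zpow, zpow_neg, inv_inv]⟩, ⟨-n, by rwa [inv_zpow, zpow_neg, inv_inv]⟩⟩
      exact unbounded_false hP hZ B hcomm (inv_mem haB) h1
        (fun h2 => hnot _ hJ' ⟨h1, h2⟩) hJ'

end Pool.Agent.SolRO
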