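import Mathlib
import Pool.Agent.SolRO.FG

/-!
# Finitely generated subgroups with finite abelianization

Let `G` be soluble and let `T` be a finite set with normal closure `G`. For every finite set `F` there
is a nonempty finite set `S` such that all conjugates `g⁻¹ f g` (`g ∈ S`, `f ∈ F`) lie in the
subgroup generated by the conjugates `s⁻¹ t s` (`s ∈ S`, `t ∈ T`).
-/

set_option autoImplicit false

open scoped commutatorElement

namespace Pool.Agent.SolRO

variable {G : Type*} [Group G]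

/-- The subgroup generated by the conjugates of `T` by elements of `S`. -/
def Gam (T S : Set G) : Subgroup G :=
  Subgroup.closure {x | ∃ t ∈ T, ∃ s ∈ S, x = s⁻¹ * t * s}

theorem mem_Gam {T S : Set G} {t s : G} (ht : t ∈ T) (hs : s ∈ S) : s⁻¹ * t * s ∈ Gam T S :=
  Subgroup.subset_closure ⟨t, ht, s, hs, rfl⟩

theorem Gam_mono {T S S' : Set G} (h : S ⊆ S') : Gam T S ≤ Gam T S' :=
  Subgroup.closure_mono (by rintro x ⟨t, ht, s, hs, rfl⟩; exact ⟨t, ht, s, h hs, rfl⟩)

theorem exists_finite_Gam {T : Set G} (hT : Subgroup.normalClosure T = ⊤) (x : G) :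
    ∃ S : Set G, S.Finite ∧ x ∈ Gam T S := by
  have hx : x ∈ Subgroup.normalClosure T := by rw [hT]; trivial
  refine Subgroup.closure_induction (p := fun x _ => ∃ S : Set G, S.Finite ∧ x ∈ Gam T S)
    ?_ ?_ ?_ ?_ hx
  · intro y hy
    rw [Group.mem_conjugatesOfSet_iff] at hy
    obtain ⟨t, ht, hc⟩ := hy
    rw [isConj_iff] at hc
    obtain ⟨c, rfl⟩ := hc
    refine ⟨{c⁻¹}, Set.finite_singleton _, ?_⟩
    have := mem_Gam (T := T) (S := {c⁻¹}) ht (Set.mem_singleton _)
    rwa [inv_inv] at this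
  · exact ⟨∅, Set.finite_empty, one_mem _⟩
  · rintro y z _ _ ⟨S, hS, hy⟩ ⟨S', hS', hz⟩
    exact ⟨S ∪ S', hS.union hS', mul_mem (Gam_mono Set.subset_union_left hy)
      (Gam_mono Set.subset_union_right hz)⟩
  · rintro y _ ⟨S, hS, hy⟩
    exact ⟨S, hS, inv_mem hy⟩

/-- The conjugate-closure property relative to a normal subgroup `M`. -/
def Prp (T : Set G) (M : Subgroup G) : Prop :=
  ∀ F : Set G, F.Finite → ∃ S : Set G, S.Finite ∧ S.Nonempty ∧
    ∀ g ∈ S, ∀ f ∈ F, g⁻¹ * f * g ∈ Gam T S ⊔ M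

theorem prp_step {T : Set G} (hT : Subgroup.normalClosure T = ⊤) (M M' : Subgroup G)
    [hM : M.Normal] [M'.Normal] (hMM : ∀ x ∈ M, ∀ y ∈ M, ⁅x, y⁆ ∈ M')
    (h : Prp T M) : Prp T M' := by
  classical
  intro F hF
  choose S₀ hS₀f hS₀ using exists_finite_Gam hT
  -- a finite set whose conjugates of T generate everything in F
  let S1 : Set G := ⋃ f ∈ F, S₀ f
  have hS1f : S1.Finite := hF.biUnion (fun f _ => hS₀f f)
  have hFS1 : ∀ f ∈ F, f ∈ Gam T S1 := fun f hf =>
    Gam_mono (Set.subset_biUnion_of_mem (u := S₀) hf) (hS₀ f)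
  obtain ⟨S, hSf, hSn, hS⟩ := h (F ∪ S1) (hF.union hS1f)
  have hdec : ∀ g f : G, ∃ y m : G, (g ∈ S → f ∈ F ∪ S1 → y ∈ Gam T S ∧ m ∈ M ∧
      g⁻¹ * f * g = y * m) := by
    intro g f
    by_cases hg : g ∈ S
    · by_cases hf : f ∈ F ∪ S1
      · have h1 := hS g hg f hf
        rw [← SetLike.mem_coe, Subgroup.mul_normal] at h1
        obtain ⟨y, hy, m, hm, e⟩ := Set.mem_mul.mp h1
        exact ⟨y, m, fun _ _ => ⟨hy, hm, e.symm⟩⟩
      · exact ⟨1, 1, fun _ h => absurd h hf⟩
    · exact ⟨1, 1, fun h => absurd h hg⟩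
  choose y m hym using hdec
  let E : Set G := (fun p : G × G => m p.1 p.2) '' (S ×ˢ (F ∪ S1))
  have hEf : E.Finite := (hSf.prod (hF.union hS1f)).image _
  have hEM : ∀ e ∈ E, e ∈ M := by
    rintro _ ⟨⟨g, f⟩, ⟨hg, hf⟩, rfl⟩
    exact (hym g f hg hf).2.1
  let S' : Set G := S ∪ (fun p : G × G => p.1 * p.2) '' (S ×ˢ E)
  have hS'f : S'.Finite := hSf.union ((hSf.prod hEf).image _)
  have hSS' : S ⊆ S' := Set.subset_union_left
  have hSE : ∀ g ∈ S, ∀ e ∈ E, g * e ∈ S' := fun g hg e he =>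
    Or.inr ⟨(g, e), ⟨hg, he⟩, rfl⟩
  -- Claim A
  have hA : ∀ e ∈ E, ∀ x ∈ Gam T S, e⁻¹ * x * e ∈ Gam T S' := by
    intro e he x hx
    refine Subgroup.closure_induction (p := fun x _ => e⁻¹ * x * e ∈ Gam T S') ?_ ?_ ?_ ?_ hx
    · rintro _ ⟨t, ht, s, hs, rfl⟩
      have := mem_Gam ht (hSE s hs e he)
      convert this using 1
      group
    · simp
    · intro a b _ _ ha hb
      have := mul_mem ha hb
      convert this using 1
      group
    · intro a _ ha
      have := inv_mem ha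
      convert this using 1
      group
  -- Claim B
  have hBcl : ∀ e ∈ E, ∀ x ∈ Gam T S', e⁻¹ * x * e ∈ Gam T S' ⊔ M' := by
    intro e he x hx
    refine Subgroup.closure_induction (p := fun x _ => e⁻¹ * x * e ∈ Gam T S' ⊔ M')
      ?_ ?_ ?_ ?_ hx
    · rintro _ ⟨t, ht, s, hs, rfl⟩
      rcases hs with hs | ⟨⟨g, u⟩, ⟨hg, hu⟩, rfl⟩
      · exact Subgroup.mem_sup_left (hA e he _ (mem_Gam ht hs))
      · simp only at hg hu ⊢
        set w := g⁻¹ * t * g with hw
        have hwS : w ∈ Gam T S := mem_Gam ht hg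
        set c := w⁻¹ * (u⁻¹ * w * u) with hc
        have hcM : c ∈ M := by
          have h1 : w⁻¹ * u⁻¹ * w ∈ M := by
            have := hM.conj_mem u⁻¹ (inv_mem (hEM u hu)) w⁻¹
            rwa [inv_inv] at this
          have := mul_mem h1 (hEM u hu)
          convert this using 1
          rw [hc]; group
        have hcM' : c⁻¹ * e⁻¹ * c * e ∈ M' := by
          have := hMM c⁻¹ (inv_mem hcM) e⁻¹ (inv_mem (hEM e he))
          rw [commutatorElement_def, inv_inv, inv_inv] at this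
          exact this
        have e1 : e⁻¹ * ((g * u)⁻¹ * t * (g * u)) * e =
            ((e⁻¹ * w * e) * w⁻¹ * (u⁻¹ * w * u)) * (c⁻¹ * e⁻¹ * c * e) := by
          rw [hc, hw]; group
        rw [e1]
        refine mul_mem (Subgroup.mem_sup_left ?_) (Subgroup.mem_sup_right hcM')
        exact mul_mem (mul_mem (hA e he w hwS) (inv_mem (Gam_mono hSS' hwS))) (hA u hu w hwS)
    · simp
    · intro a b _ _ ha hb
      have := mul_mem ha hb
      convert this using 1
      group
    · intro a _ ha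
      have := inv_mem ha
      convert this using 1
      group
  -- Claim C
  have hC : ∀ g ∈ S, ∀ f ∈ F, g⁻¹ * f * g ∈ Gam T S' := by
    intro g hg f hf
    refine Subgroup.closure_induction (p := fun x _ => g⁻¹ * x * g ∈ Gam T S')
      ?_ ?_ ?_ ?_ (hFS1 f hf)
    · rintro _ ⟨t, ht, s, hs, rfl⟩
      obtain ⟨hy, hm, e⟩ := hym g s hg (Or.inr hs)
      have h1 : (y g s)⁻¹ * (g⁻¹ * t * g) * (y g s) ∈ Gam T S :=
        mul_mem (mul_mem (inv_mem hy) (mem_Gam ht hg)) hy
      have h2 := hA (m g s) ⟨(g, s), ⟨hg, Or.inr hs⟩, rfl⟩ _ h1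
      have e2 : g⁻¹ * (s⁻¹ * t * s) * g = (g⁻¹ * s * g)⁻¹ * (g⁻¹ * t * g) * (g⁻¹ * s * g) := by
        group
      rw [e2, e]
      convert h2 using 1
      group
    · simp
    · intro a b _ _ ha hb
      have := mul_mem ha hb
      convert this using 1
      group
    · intro a _ ha
      have := inv_mem ha
      convert this using 1
      group
  refine ⟨S', hS'f, hSn.mono hSS', ?_⟩
  intro g' hg' f hf
  rcases hg' with hg | ⟨⟨g, e⟩, ⟨hg, he⟩, rfl⟩
  · exact Subgroup.mem_sup_left (hC g' hg f hf)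
  · have := hBcl e he _ (hC g hg f hf)
    convert this using 1
    simp only
    group

theorem prp_derived {T : Set G} (hT : Subgroup.normalClosure T = ⊤) (n : ℕ) :
    Prp T (derivedSeries G n) := by
  induction n with
  | zero =>
    intro F _
    refine ⟨{1}, Set.finite_singleton _, Set.singleton_nonempty _, ?_⟩
    intro g _ f _
    rw [derivedSeries_zero]
    exact Subgroup.mem_sup_right (Subgroup.mem_top _)
  | succ n ih =>
    refine prp_step hT (derivedSeries G n) (derivedSeries G (n + 1)) ?_ ih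
    intro x hx y hy
    rw [derivedSeries_succ]
    exact Subgroup.commutator_mem_commutator hx hy

/-- Elements of the derived subgroup are killed by all homomorphisms from suitable subgroups. -/
theorem kill {x : G} (hx : x ∈ commutator G) :
    ∃ F : Set G, F.Finite ∧ ∀ (H : Subgroup G) (g : G), (∀ f ∈ F, g⁻¹ * f * g ∈ H) →
      ∃ hx : g⁻¹ * x * g ∈ H, ∀ φ : H → ℝ, (∀ a b, φ (a * b) = φ a + φ b) →
        φ ⟨g⁻¹ * x * g, hx⟩ = 0 := by
  rw [commutator_eq_closure] at hx
  have φ1 : ∀ {H : Subgroup G} (φ : H → ℝ), (∀ a b, φ (a * b) = φ a + φ b) → φ 1 = 0 := by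
    intro H φ hφ
    have := hφ 1 1
    rw [mul_one] at this
    linarith
  have φinv : ∀ {H : Subgroup G} (φ : H → ℝ), (∀ a b, φ (a * b) = φ a + φ b) →
      ∀ a, φ a⁻¹ = - φ a := by
    intro H φ hφ a
    have := hφ a a⁻¹
    rw [mul_inv_cancel, φ1 φ hφ] at this
    linarith
  refine Subgroup.closure_induction (p := fun x _ => ∃ F : Set G, F.Finite ∧
    ∀ (H : Subgroup G) (g : G), (∀ f ∈ F, g⁻¹ * f * g ∈ H) →
      ∃ hx : g⁻¹ * x * g ∈ H, ∀ φ : H → ℝ, (∀ a b, φ (a * b) = φ a + φ b) →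
        φ ⟨g⁻¹ * x * g, hx⟩ = 0) ?_ ?_ ?_ ?_ hx
  · rintro _ ⟨a, b, rfl⟩
    refine ⟨{a, b}, (Set.finite_singleton b).insert a, ?_⟩
    intro H g hF
    have ha := hF a (by simp)
    have hb := hF b (by simp)
    have e : g⁻¹ * ⁅a, b⁆ * g = ((⟨_, ha⟩ * ⟨_, hb⟩ * ⟨_, ha⟩⁻¹ * ⟨_, hb⟩⁻¹ : H) : G) := by
      simp only [Subgroup.coe_mul, Subgroup.coe_inv]
      rw [commutatorElement_def]
      group
    refine ⟨by rw [e]; exact SetLike.coe_mem _, ?_⟩
    intro φ hφ
    have e2 : (⟨g⁻¹ * ⁅a, b⁆ * g, by rw [e]; exact SetLike.coe_mem _⟩ : H) =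
        (⟨_, ha⟩ * ⟨_, hb⟩ * ⟨_, ha⟩⁻¹ * ⟨_, hb⟩⁻¹ : H) := Subtype.ext e
    rw [e2, hφ, hφ, hφ, φinv φ hφ, φinv φ hφ]
    ring
  · refine ⟨∅, Set.finite_empty, ?_⟩
    intro H g _
    have e : g⁻¹ * 1 * g = 1 := by group
    refine ⟨by rw [e]; exact one_mem _, ?_⟩
    intro φ hφ
    have e2 : (⟨g⁻¹ * 1 * g, by rw [e]; exact one_mem _⟩ : H) = 1 := Subtype.ext e
    rw [e2, φ1 φ hφ]
  · rintro a b _ _ ⟨F, hF, h1⟩ ⟨F', hF', h2⟩
    refine ⟨F ∪ F', hF.union hF', ?_⟩
    intro H g hFF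
    obtain ⟨ha, h1'⟩ := h1 H g (fun f hf => hFF f (Or.inl hf))
    obtain ⟨hb, h2'⟩ := h2 H g (fun f hf => hFF f (Or.inr hf))
    have e : g⁻¹ * (a * b) * g = (g⁻¹ * a * g) * (g⁻¹ * b * g) := by group
    refine ⟨by rw [e]; exact mul_mem ha hb, ?_⟩
    intro φ hφ
    have e2 : (⟨g⁻¹ * (a * b) * g, by rw [e]; exact mul_mem ha hb⟩ : H) =
        ⟨_, ha⟩ * ⟨_, hb⟩ := Subtype.ext e
    rw [e2, hφ, h1' φ hφ, h2' φ hφ, add_zero]
  · rintro a _ ⟨F, hF, h1⟩
    refine ⟨F, hF, ?_⟩
    intro H g hFF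
    obtain ⟨ha, h1'⟩ := h1 H g hFF
    have e : g⁻¹ * a⁻¹ * g = (g⁻¹ * a * g)⁻¹ := by group
    refine ⟨by rw [e]; exact inv_mem ha, ?_⟩
    intro φ hφ
    have e2 : (⟨g⁻¹ * a⁻¹ * g, by rw [e]; exact inv_mem ha⟩ : H) = (⟨_, ha⟩ : H)⁻¹ :=
      Subtype.ext e
    rw [e2, φinv φ hφ, h1' φ hφ, neg_zero]

/-- A finite set generating modulo the derived subgroup has full normal closure, if `G` is
soluble. -/
theorem normalClosure_eq_top [hs : Group.IsSolvable G] {T : Set G}
    (hT : ∀ g : G, ∃ t ∈ T, t⁻¹ * g ∈ commutator G) : Subgroup.normalClosure T = ⊤ := by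
  set N := Subgroup.normalClosure T with hN
  by_contra hne
  have hnt : Nontrivial (G ⧸ N) := by
    rw [← not_subsingleton_iff_nontrivial]
    intro hsub
    apply hne
    rw [eq_top_iff]
    intro g _
    exact (QuotientGroup.eq_one_iff g).mp (Subsingleton.elim _ _)
  have hlt := Group.IsSolvable.commutator_lt_top_of_nontrivial (G ⧸ N)
  apply hlt.ne
  rw [eq_top_iff]
  intro x _
  obtain ⟨g, rfl⟩ := QuotientGroup.mk'_surjective N x
  obtain ⟨t, ht, htg⟩ := hT g
  have h1 : QuotientGroup.mk' N g = QuotientGroup.mk' N (t⁻¹ * g) := by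
    rw [map_mul, map_inv]
    have : QuotientGroup.mk' N t = 1 := by
      rw [← MonoidHom.mem_ker, QuotientGroup.ker_mk']
      exact Subgroup.subset_normalClosure ht
    rw [this, inv_one, one_mul]
  rw [h1]
  have h2 : (commutator G).map (QuotientGroup.mk' N) ≤ commutator (G ⧸ N) := by
    rw [commutator_def, commutator_def, Subgroup.map_commutator]
    exact Subgroup.commutator_mono le_top le_top
  exact h2 ⟨_, htg, rfl⟩

/-- Every nontrivial soluble group with a total order preserved by right multiplication has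
infinite abelianization. -/
theorem main (G : Type) [Group G] [LinearOrder G] [Nontrivial G] [hs : Group.IsSolvable G]
    (hord : ∀ a b c : G, a ≤ b → a * c ≤ b * c) (hfin : Finite (Abelianization G)) : False := by
  classical
  -- the positive cone
  let P : Submonoid G :=
    { carrier := {g | 1 ≤ g}
      one_mem' := le_refl (1 : G)
      mul_mem' := by
        intro g h hg hh
        have h1 : 1 * h ≤ g * h := hord _ _ _ hg
        rw [one_mul] at h1
        exact le_trans hh h1 }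
  have hP : Total P := by
    intro g
    rcases le_total 1 g with h | h
    · exact Or.inl h
    · right
      have h1 : g * g⁻¹ ≤ 1 * g⁻¹ := hord _ _ _ h
      rw [mul_inv_cancel, one_mul] at h1
      exact h1
  have hPanti : ∀ g, g ∈ P → g⁻¹ ∈ P → g = 1 := by
    intro g h1 h2
    have h3 : 1 * g ≤ g⁻¹ * g := hord _ _ _ h2
    rw [one_mul, inv_mul_cancel] at h3
    exact le_antisymm h3 h1
  -- generators modulo the derived subgroup
  let T : Set G := Set.range (fun x : Abelianization G => (Quotient.out x : G))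
  have hTf : T.Finite := Set.finite_range _
  have hT : ∀ g : G, ∃ t ∈ T, t⁻¹ * g ∈ commutator G := by
    intro g
    refine ⟨Quotient.out (QuotientGroup.mk g : G ⧸ commutator G), ⟨_, rfl⟩, ?_⟩
    rw [← QuotientGroup.eq]
    exact Quotient.out_eq' _
  have hTn := normalClosure_eq_top hT
  set m := Nat.card (Abelianization G) with hm
  have hmpos : 0 < m := Nat.card_pos
  have hpow : ∀ g : G, g ^ m ∈ commutator G := by
    intro g
    have h1 : (QuotientGroup.mk (g ^ m) : G ⧸ commutator G) = 1 := by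
      rw [QuotientGroup.mk_pow]
      exact pow_card_eq_one' (G := Abelianization G)
    exact (QuotientGroup.eq_one_iff _).mp h1
  choose K hKf hK using fun g : G => kill (hpow g)
  let F : Set G := ⋃ t ∈ T, K t
  have hFf : F.Finite := hTf.biUnion (fun t _ => hKf t)
  obtain ⟨n, hn⟩ := hs.solvable
  have hprp := prp_derived hTn n
  rw [hn] at hprp
  obtain ⟨S, hSf, ⟨s₀, hs₀⟩, hS⟩ := hprp F hFf
  rw [sup_bot_eq] at hS
  let H := Gam T S
  have hset : {x : G | ∃ t ∈ T, ∃ s ∈ S, x = s⁻¹ * t * s}.Finite := by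
    refine ((hTf.prod hSf).image (fun p : G × G => p.2⁻¹ * p.1 * p.2)).subset ?_
    rintro _ ⟨t, ht, s, hs, rfl⟩
    exact ⟨(t, s), ⟨ht, hs⟩, rfl⟩
  have hfg : Group.FG H := by
    rw [Group.fg_iff_subgroup_fg]
    exact ⟨hset.toFinset, by rw [Set.Finite.coe_toFinset]; rfl⟩
  have hHs : derivedSeries H n = ⊥ := by
    have h1 := map_derivedSeries_le_derivedSeries H.subtype n
    rw [hn, le_bot_iff] at h1
    exact (Subgroup.map_eq_bot_iff_of_injective _ H.subtype_injective).mp h1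
  have hZ : ∀ φ : H → ℝ, (∀ x y, φ (x * y) = φ x + φ y) → ∀ x, φ x = 0 := by
    intro φ hφ
    have φ1 : φ 1 = 0 := by
      have := hφ 1 1
      rw [mul_one] at this
      linarith
    have φpow : ∀ (x : H) (k : ℕ), φ (x ^ k) = k * φ x := by
      intro x k
      induction k with
      | zero => simp [φ1]
      | succ k ih => rw [pow_succ, hφ, ih]; push_cast; ring
    have key : ∀ x (hx : x ∈ H), φ ⟨x, hx⟩ = 0 := by
      intro x hx
      refine Subgroup.closure_induction (p := fun x hx => φ ⟨x, hx⟩ = 0) ?_ ?_ ?_ ?_ hx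
      · rintro x ⟨t, ht, s, hs, rfl⟩
        obtain ⟨h1, h2⟩ := hK t H s (fun f hf => hS s hs f (Set.mem_biUnion ht hf))
        have h3 := h2 φ hφ
        have h4 : (⟨s⁻¹ * t ^ m * s, h1⟩ : H) = (⟨s⁻¹ * t * s, mem_Gam ht hs⟩ : H) ^ m := by
          apply Subtype.ext
          rw [Subgroup.coe_pow]
          have := conj_pow (i := m) (a := s⁻¹) (b := t)
          rw [inv_inv] at this
          exact this.symm
        rw [h4, φpow] at h3
        rcases mul_eq_zero.mp h3 with h5 | h5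
        · exact absurd h5 (by exact_mod_cast hmpos.ne')
        · exact h5
      · exact φ1
      · intro a b ha hb h1 h2
        have := hφ ⟨a, ha⟩ ⟨b, hb⟩
        rw [h1, h2, add_zero] at this
        exact this
      · intro a ha h1
        have := hφ ⟨a, ha⟩ ⟨a, ha⟩⁻¹
        rw [mul_inv_cancel, φ1, h1, zero_add] at this
        exact this.symm
    intro x
    exact key x x.2
  have hall := no_total n H hHs hZ (P.comap H.subtype) (fun g => hP (g : G))
  have hone : ∀ x ∈ H, x = 1 := by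
    intro x hx
    exact hPanti x (hall ⟨x, hx⟩) (hall ⟨x, hx⟩⁻¹)
  have hT1 : ∀ t ∈ T, t = 1 := by
    intro t ht
    have h1 := hone _ (mem_Gam ht hs₀)
    have h2 : s₀ * (s₀⁻¹ * t * s₀) * s₀⁻¹ = s₀ * 1 * s₀⁻¹ := by rw [h1]
    simpa [mul_assoc] using h2
  have hperf : commutator G = ⊤ := by
    rw [eq_top_iff]
    intro g _
    obtain ⟨t, ht, h1⟩ := hT g
    rw [hT1 t ht, inv_one, one_mul] at h1
    exact h1
  exact (Group.IsSolvable.commutator_lt_top_of_nontrivial G).ne hperf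

end Pool.Agent.SolRO
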